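import Pool.Agent.H418R3.EF.Stmts

set_option autoImplicit false

namespace Pool.Agent.H938R3.EF

open Pool.Agent.H418R3.EF

section

variable {G : Type} [Group G] {X : Type} [MulAction G X] {P : Set X} {Γ : Type} [Group Γ]
  (β : X → X → Γ) (ℓ : X → ℕ)

/-- The class relation. -/
def R (z w : P × Γ) : Prop := ∃ g : G, g • (z.1 : X) = (w.1 : X) ∧ w.2 = β w.1 z.1 * z.2

open Classical in
/-- The move by `g`. -/
noncomputable def mv (g : G) (z : P × Γ) : P × Γ :=
  if h : g • (z.1 : X) ∈ P then (⟨g • (z.1 : X), h⟩, β (g • (z.1 : X)) z.1 * z.2) else z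

end

theorem t : TaskFrame := by
  classical
  intro G _ _ X _ _ _ hm P hP hC
  obtain ⟨Γ, _, _, β, ℓ, hcoc, hsep, hβm, hℓm⟩ := hC
  let _ : MeasurableSpace Γ := ⊤
  have _ : DiscreteMeasurableSpace Γ := ⟨fun _ => trivial⟩
  obtain ⟨idx, hidx⟩ := exists_injective_nat Γ
  have h1 : ∀ x ∈ P, β x x = 1 := by
    intro x hx
    have := hcoc x hx x hx x hx ⟨1, one_smul _ _⟩ ⟨1, one_smul _ _⟩
    exact (mul_eq_left.1 this.symm)
  have hrefl : ∀ z : P × Γ, R (G := G) β z z := by
    intro z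
    exact ⟨1, one_smul _ _, by rw [h1 _ z.1.2, one_mul]⟩
  have hsymm : ∀ z w : P × Γ, R (G := G) β z w → R (G := G) β w z := by
    rintro z w ⟨g, hg, h⟩
    have hg' : g⁻¹ • (w.1 : X) = (z.1 : X) := by rw [← hg, inv_smul_smul]
    refine ⟨g⁻¹, hg', ?_⟩
    have := hcoc _ z.1.2 _ w.1.2 _ z.1.2 ⟨g, hg⟩ ⟨g⁻¹, hg'⟩
    rw [h1 _ z.1.2] at this
    rw [h, ← mul_assoc, ← this, one_mul]
  have htrans : ∀ z w v : P × Γ, R (G := G) β z w → R (G := G) β w v → R (G := G) β z v := by
    rintro z w v ⟨g, hg, h⟩ ⟨g', hg', h'⟩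
    refine ⟨g' * g, by rw [mul_smul, hg, hg'], ?_⟩
    rw [h', h, ← mul_assoc, ← hcoc _ z.1.2 _ w.1.2 _ v.1.2 ⟨g, hg⟩ ⟨g', hg'⟩]
  have hmv : ∀ (g : G) (z : P × Γ), R (G := G) β z (mv β g z) := by
    intro g z
    unfold mv
    split_ifs with h
    · exact ⟨g, rfl, rfl⟩
    · exact hrefl z
  have hmv' : ∀ (z w : P × Γ), R (G := G) β z w → ∃ g : G, w = mv β g z := by
    rintro z w ⟨g, hg, h⟩
    refine ⟨g, ?_⟩
    unfold mv
    rw [dif_pos (by rw [hg]; exact w.1.2)]
    refine Prod.ext (Subtype.ext hg.symm) ?_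
    simp only [h, hg]
  let k : P × Γ → ℕ := fun z => Nat.pair (idx z.2) (ℓ z.1)
  have huniq : ∀ z w : P × Γ, R (G := G) β z w → k z = k w → z = w := by
    rintro z w ⟨g, hg, h⟩ hk
    obtain ⟨ha, hb⟩ := Nat.pair_eq_pair.1 hk
    have h2 := hidx ha
    rw [← h2] at h
    have h3 : β w.1 z.1 = 1 := mul_eq_right.1 h.symm
    exact Prod.ext (Subtype.ext (hsep _ z.1.2 _ w.1.2 ⟨g, hg⟩ h3 hb)) h2
  have hex : ∀ z : P × Γ, ∃ w, R (G := G) β z w ∧ ∀ v, R (G := G) β z v → k w ≤ k v := by
    intro z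
    have hne : ∃ n, ∃ w, R (G := G) β z w ∧ k w = n := ⟨k z, z, hrefl z, rfl⟩
    obtain ⟨w, hw, hwn⟩ := Nat.find_spec hne
    refine ⟨w, hw, fun v hv => ?_⟩
    rw [hwn]
    exact Nat.find_min' hne ⟨v, hv, rfl⟩
  choose s hs1 hs2 using hex
  have hs3 : ∀ z v : P × Γ, R (G := G) β z v → (∀ w, R (G := G) β z w → k v ≤ k w) → s z = v := by
    intro z v hv hmin
    refine huniq _ _ (htrans _ _ _ (hsymm _ _ (hs1 z)) hv) ?_
    exact le_antisymm (hs2 z v hv) (hmin _ (hs1 z))
  have hs4 : ∀ z w : P × Γ, R (G := G) β z w → s z = s w := by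
    intro z w h
    refine hs3 z (s w) (htrans _ _ _ h (hs1 w)) ?_
    intro v hv
    exact hs2 w v (htrans _ _ _ (hsymm _ _ h) hv)
  -- measurability
  have hkm : Measurable k := by
    have h2 : Measurable (fun z : P × Γ => idx z.2) :=
      (measurable_of_countable idx).comp measurable_snd
    have h3 : Measurable (fun x : P => ℓ x) := by
      refine measurable_to_countable' fun n => ?_
      have : (fun x : P => ℓ x) ⁻¹' {n} = Subtype.val ⁻¹' {x | x ∈ P ∧ ℓ x = n} := by
        ext x; simp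
      rw [this]
      exact measurable_subtype_coe (hℓm n)
    exact (measurable_of_countable (fun p : ℕ × ℕ => Nat.pair p.1 p.2)).comp
      (h2.prodMk (h3.comp measurable_fst))
  have hmvm : ∀ g : G, Measurable (mv (P := P) β g) := by
    intro g
    have hA : MeasurableSet {z : P × Γ | g • (z.1 : X) ∈ P} :=
      ((hm g).comp (measurable_subtype_coe.comp measurable_fst)) hP
    have h2 : Measurable (fun z : P × Γ => ((mv β g z).1 : X)) := by
      have : (fun z : P × Γ => ((mv β g z).1 : X)) =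
          fun z => if g • (z.1 : X) ∈ P then g • (z.1 : X) else (z.1 : X) := by
        funext z
        unfold mv
        split_ifs <;> rfl
      rw [this]
      exact Measurable.ite hA ((hm g).comp (measurable_subtype_coe.comp measurable_fst))
        (measurable_subtype_coe.comp measurable_fst)
    have h3 : Measurable (fun x : P => if g • (x : X) ∈ P then β (g • (x : X)) x else 1) := by
      refine measurable_to_countable' fun δ => ?_
      have hB : MeasurableSet {x : P | g • (x : X) ∈ P} :=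
        ((hm g).comp measurable_subtype_coe) hP
      have : (fun x : P => if g • (x : X) ∈ P then β (g • (x : X)) x else 1) ⁻¹' {δ} =
          (Subtype.val ⁻¹' {x | x ∈ P ∧ g • x ∈ P ∧ β (g • x) x = δ}) ∪
            ({x : P | g • (x : X) ∈ P}ᶜ ∩ {_x | (1 : Γ) = δ}) := by
        ext x
        by_cases h : g • (x : X) ∈ P <;> simp [h]
      rw [this]
      exact (measurable_subtype_coe (hβm g δ)).union (hB.compl.inter (MeasurableSet.const _))
    have h4 : Measurable (fun z : P × Γ => (mv β g z).2) := by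
      have : (fun z : P × Γ => (mv β g z).2) = (fun p : Γ × Γ => p.1 * p.2) ∘
          (fun z : P × Γ => ((fun x : P => if g • (x : X) ∈ P then β (g • (x : X)) x else 1) z.1,
            z.2)) := by
        funext z
        unfold mv
        by_cases h : g • (z.1 : X) ∈ P <;> simp [h]
      rw [this]
      exact (measurable_of_countable _).comp ((h3.comp measurable_fst).prodMk measurable_snd)
    exact (Measurable.subtype_mk (p := fun x => x ∈ P) (h := fun z => (mv β g z).1.2) h2).prodMk h4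
  have hAm : ∀ g : G, MeasurableSet {z : P × Γ | ∀ h : G, k (mv β g z) ≤ k (mv β h z)} := by
    intro g
    rw [Set.ofPred_forall]
    refine MeasurableSet.iInter fun h => ?_
    exact measurableSet_le (hkm.comp (hmvm g)) (hkm.comp (hmvm h))
  have hsm : Measurable s := by
    intro B hB
    have : s ⁻¹' B = ⋃ g : G, {z : P × Γ | ∀ h : G, k (mv β g z) ≤ k (mv β h z)} ∩
        (mv β g) ⁻¹' B := by
      ext z
      simp only [Set.mem_preimage, Set.mem_iUnion, Set.mem_inter_iff, Set.mem_ofPred_eq]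
      constructor
      · intro hz
        obtain ⟨g, hg⟩ := hmv' z (s z) (hs1 z)
        refine ⟨g, fun h => ?_, by rw [← hg]; exact hz⟩
        rw [← hg]
        exact hs2 z _ (hmv h z)
      · rintro ⟨g, hg, hB'⟩
        have : s z = mv β g z := by
          refine hs3 z _ (hmv g z) fun w hw => ?_
          obtain ⟨h, rfl⟩ := hmv' z w hw
          exact hg h
        rw [this]; exact hB'
    rw [this]
    exact MeasurableSet.iUnion fun g => (hAm g).inter (hmvm g hB)
  let Y : Set (P × Γ) := {z | ∀ h : G, k z ≤ k (mv β h z)}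
  have hYm : MeasurableSet Y := by
    show MeasurableSet {z : P × Γ | ∀ h : G, k z ≤ k (mv β h z)}
    rw [Set.ofPred_forall]
    exact MeasurableSet.iInter fun h => measurableSet_le hkm (hkm.comp (hmvm h))
  have hsY : ∀ z, s z ∈ Y := by
    intro z h
    exact hs2 z _ (htrans _ _ _ (hs1 z) (hmv h _))
  have hYs : ∀ z ∈ Y, s z = z := by
    intro z hz
    refine hs3 z z (hrefl z) fun w hw => ?_
    obtain ⟨h, rfl⟩ := hmv' z w hw
    exact hz h
  have _ : StandardBorelSpace P := hP.standardBorel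
  have _ : StandardBorelSpace Y := hYm.standardBorel
  -- the action
  let a : Γ → P × Γ → P × Γ := fun γ z => (z.1, z.2 * γ⁻¹)
  have haR : ∀ γ z w, R (G := G) β z w → R (G := G) β (a γ z) (a γ w) := by
    rintro γ z w ⟨g, hg, h⟩
    refine ⟨g, hg, ?_⟩
    show w.2 * γ⁻¹ = β w.1 z.1 * (z.2 * γ⁻¹)
    rw [h, mul_assoc]
  have ham : ∀ γ, Measurable (a γ) := by
    intro γ
    exact measurable_fst.prodMk ((measurable_of_countable (fun δ : Γ => δ * γ⁻¹)).comp
      measurable_snd)
  let act : MulAction Γ Y :=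
    { smul := fun γ z => ⟨s (a γ z), hsY _⟩
      one_smul := by
        intro z
        refine Subtype.ext ?_
        show s (a 1 z) = z
        have : a 1 z.1 = z.1 := by
          show (z.1.1, z.1.2 * 1⁻¹) = z.1
          simp
        rw [this]
        exact hYs _ z.2
      mul_smul := by
        intro γ δ z
        refine Subtype.ext ?_
        show s (a (γ * δ) z) = s (a γ (s (a δ z)))
        have h2 : a (γ * δ) z.1 = a γ (a δ z.1) := by
          show (z.1.1, z.1.2 * (γ * δ)⁻¹) = (z.1.1, z.1.2 * δ⁻¹ * γ⁻¹)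
          rw [mul_inv_rev, mul_assoc]
        rw [h2]
        exact hs4 _ _ (haR γ _ _ (hs1 _)) }
  have hsmul : ∀ (γ : Γ) (z : Y), ((γ • z : Y) : P × Γ) = s (a γ z) := fun _ _ => rfl
  have hF : ∀ z w : Y, (∃ γ : Γ, γ • z = w) ↔ ∃ g : G, g • (z.1.1 : X) = (w.1.1 : X) := by
    intro z w
    constructor
    · rintro ⟨γ, rfl⟩
      rw [hsmul]
      obtain ⟨g, hg, -⟩ := hs1 (a γ z)
      exact ⟨g, hg⟩
    · rintro ⟨g, hg⟩
      refine ⟨w.1.2⁻¹ * β w.1.1 z.1.1 * z.1.2, Subtype.ext ?_⟩
      rw [hsmul]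
      have : R (G := G) β (a (w.1.2⁻¹ * β w.1.1 z.1.1 * z.1.2) z.1) w.1 := by
        refine ⟨g, hg, ?_⟩
        show w.1.2 = β w.1.1 z.1.1 * (z.1.2 * (w.1.2⁻¹ * β w.1.1 z.1.1 * z.1.2)⁻¹)
        group
      rw [hs4 _ _ this, hYs _ w.2]
  refine ⟨Y, inferInstance, inferInstance, fun z w => ∃ γ : Γ, γ • z = w,
    ⟨Γ, inferInstance, inferInstance, act, ?_, ?_, fun _ _ => Iff.rfl⟩, ?_, ?_⟩
  · intro γ
    exact Measurable.subtype_mk (h := fun z => hsY _)
      (hsm.comp ((ham γ).comp measurable_subtype_coe))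
  · intro γ z h
    have h2 : s (a γ z) = z := congrArg Subtype.val h
    obtain ⟨g, hg, h3⟩ := hs1 (a γ z)
    rw [h2] at h3
    have h4 : (z.1).2 = β z.1.1 z.1.1 * (z.1.2 * γ⁻¹) := h3
    rw [h1 _ z.1.1.2, one_mul] at h4
    have := mul_eq_left.1 h4.symm
    exact inv_eq_one.1 this
  · refine ⟨fun x => ⟨s (x, 1), hsY _⟩, ?_, ?_⟩
    · exact Measurable.subtype_mk (h := fun z => hsY _)
        (hsm.comp (measurable_id.prodMk measurable_const))
    · intro x y
      refine Iff.trans ?_ (hF _ _).symm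
      obtain ⟨g, hg, -⟩ := hs1 (x, 1)
      obtain ⟨g', hg', -⟩ := hs1 (y, 1)
      show (∃ g : G, g • (x : X) = (y : X)) ↔
        ∃ g : G, g • ((s (x, 1)).1 : X) = ((s (y, 1)).1 : X)
      constructor
      · rintro ⟨e, he⟩
        refine ⟨g' * e * g⁻¹, ?_⟩
        rw [← hg, ← hg', mul_smul, mul_smul, inv_smul_smul, he]
      · rintro ⟨e, he⟩
        refine ⟨g'⁻¹ * e * g, ?_⟩
        rw [mul_smul, mul_smul, hg, he, ← hg', inv_smul_smul]
  · refine ⟨fun z => z.1.1, measurable_fst.comp measurable_subtype_coe, ?_⟩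
    intro z w
    exact hF z w

end Pool.Agent.H938R3.EF
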